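import Pool.Agent.Y494.PK.Stm

/-!
Project PK (MP_490135_co), job PK-ARITH: the arithmetic of `PP`.
-/

namespace Pool.Agent.Y893.PK

open Pool.Agent.Y494.PK Filter Topology

/-- weighted AM-GM with natural exponents -/
theorem amgm (k : ℕ) (hk : 1 ≤ k) (x y : ℝ) (hx : 0 ≤ x) (hy : 0 ≤ y) :
    x * y ^ k * ((k : ℝ) + 1) ^ (k + 1) ≤ (k : ℝ) ^ k * (x + y) ^ (k + 1) := by
  have hk0 : (0 : ℝ) < k := by exact_mod_cast hk
  rcases hy.eq_or_lt with h | hy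
  · rw [← h]
    rw [zero_pow (by omega), mul_zero, zero_mul]
    positivity
  · have hs : 0 < x + y := by linarith
    have h1 := one_add_mul_le_pow (a := (k : ℝ) * (x + y) / (((k : ℝ) + 1) * y) - 1)
      (by
        have : 0 ≤ (k : ℝ) * (x + y) / (((k : ℝ) + 1) * y) := by positivity
        linarith) (k + 1)
    have h2 : (1 : ℝ) + ((k + 1 : ℕ) : ℝ) * ((k : ℝ) * (x + y) / (((k : ℝ) + 1) * y) - 1)
        = (k : ℝ) * x / y := by
      push_cast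
      field_simp
      ring
    have h3 : (1 : ℝ) + ((k : ℝ) * (x + y) / (((k : ℝ) + 1) * y) - 1)
        = (k : ℝ) * (x + y) / (((k : ℝ) + 1) * y) := by ring
    rw [h2, h3, div_pow, mul_pow, mul_pow] at h1
    rw [div_le_div_iff₀ hy (by positivity)] at h1
    have h4 : (k : ℝ) * x * ((((k : ℝ) + 1) ^ (k + 1)) * y ^ (k + 1))
        = ((k : ℝ) * y) * (x * y ^ k * ((k : ℝ) + 1) ^ (k + 1)) := by ring
    have h5 : (k : ℝ) ^ (k + 1) * (x + y) ^ (k + 1) * y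
        = ((k : ℝ) * y) * ((k : ℝ) ^ k * (x + y) ^ (k + 1)) := by ring
    rw [h4, h5] at h1
    exact le_of_mul_le_mul_left h1 (by positivity)

theorem ppub : S_PPub := by
  intro l n m hl hm
  obtain ⟨k, rfl⟩ : ∃ k, l = k + 1 := ⟨l - 1, by omega⟩
  have hk : 1 ≤ k := by omega
  have hmn : m ≤ n := by omega
  have h1 : (n - (k + 1) - m).descFactorial k ≤ (n - m) ^ k :=
    (Nat.descFactorial_le_pow _ _).trans (Nat.pow_le_pow_left (by omega) _)
  have h1' : (((n - (k + 1) - m).descFactorial k : ℕ) : ℝ) ≤ ((n : ℝ) - m) ^ k := by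
    have : (((n - (k + 1) - m).descFactorial k : ℕ) : ℝ) ≤ (((n - m) ^ k : ℕ) : ℝ) := by
      exact_mod_cast h1
    rwa [Nat.cast_pow, Nat.cast_sub hmn] at this
  have h2 := amgm k hk (m : ℝ) ((n : ℝ) - m) (by positivity)
    (by have : (m : ℝ) ≤ n := by exact_mod_cast hmn
        linarith)
  have h3 : (m : ℝ) + ((n : ℝ) - m) = n := by ring
  rw [h3] at h2
  unfold PP cc
  simp only [Nat.add_sub_cancel]
  push_cast
  have h4 : (k : ℝ) + 1 - 1 = k := by ring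
  rw [h4]
  have h5 : (m : ℝ) * ((n : ℝ) - m) ^ k ≤ (k : ℝ) ^ k * (n : ℝ) ^ (k + 1) / ((k : ℝ) + 1) ^ (k + 1) := by
    rw [le_div_iff₀ (by positivity)]
    exact h2
  calc ((k.factorial : ℕ) : ℝ) * m * ((n - (k + 1) - m).descFactorial k : ℕ)
      = ((k.factorial : ℕ) : ℝ) * (m * ((n - (k + 1) - m).descFactorial k : ℕ)) := by ring
    _ ≤ ((k.factorial : ℕ) : ℝ) * (m * ((n : ℝ) - m) ^ k) := by
        gcongr
    _ ≤ ((k.factorial : ℕ) : ℝ) * ((k : ℝ) ^ k * (n : ℝ) ^ (k + 1) / ((k : ℝ) + 1) ^ (k + 1)) := by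
        gcongr
    _ = ((k.factorial : ℕ) : ℝ) * (k : ℝ) ^ k / ((k : ℝ) + 1) ^ (k + 1) * (n : ℝ) ^ (k + 1) := by
        ring

theorem pplb : S_PPlb := by
  intro l hl ε hε
  obtain ⟨k, rfl⟩ : ∃ k, l = k + 1 := ⟨l - 1, by omega⟩
  have hk : 1 ≤ k := by omega
  have hk0 : (0 : ℝ) < k := by exact_mod_cast hk
  have h0 : Tendsto (fun n : ℕ => (1 : ℝ) / (n : ℝ)) atTop (𝓝 0) :=
    tendsto_one_div_atTop_nhds_zero_nat
  have h1 : Tendsto (fun n : ℕ => ((k.factorial : ℕ) : ℝ) * (1 / ((k : ℝ) + 1) - (1 : ℝ) / (n : ℝ))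
      * (1 - 1 / ((k : ℝ) + 1) - 2 * ((k : ℝ) + 1) * ((1 : ℝ) / (n : ℝ))) ^ k) atTop
      (𝓝 (((k.factorial : ℕ) : ℝ) * (1 / ((k : ℝ) + 1) - 0)
      * (1 - 1 / ((k : ℝ) + 1) - 2 * ((k : ℝ) + 1) * 0) ^ k)) :=
    (tendsto_const_nhds.mul (tendsto_const_nhds.sub h0)).mul
      ((tendsto_const_nhds.sub (tendsto_const_nhds.mul h0)).pow _)
  have e : ((k.factorial : ℕ) : ℝ) * (1 / ((k : ℝ) + 1) - 0)
      * (1 - 1 / ((k : ℝ) + 1) - 2 * ((k : ℝ) + 1) * 0) ^ k = cc (k + 1) := by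
    unfold cc
    simp only [Nat.add_sub_cancel]
    push_cast
    have : (1 : ℝ) - 1 / ((k : ℝ) + 1) - 2 * ((k : ℝ) + 1) * 0 = (k : ℝ) / ((k : ℝ) + 1) := by
      field_simp
      ring
    rw [this, div_pow, pow_succ ((k : ℝ) + 1) k]
    have h4 : (k : ℝ) + 1 - 1 = k := by ring
    rw [h4]
    field_simp
    ring
  rw [e] at h1
  have h2 := h1.eventually (lt_mem_nhds (show cc (k + 1) - ε < cc (k + 1) by linarith))
  obtain ⟨N, hN⟩ := eventually_atTop.1 h2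
  refine ⟨max N (4 * (k + 1) * (k + 1)), ?_⟩
  intro n hn
  have hnN : N ≤ n := le_trans (le_max_left _ _) hn
  have hn4 : 4 * (k + 1) * (k + 1) ≤ n := le_trans (le_max_right _ _) hn
  have hpos : 0 < k + 1 := by omega
  set m := n / (k + 1) with hm
  have hm1 : (k + 1) * m ≤ n := Nat.mul_div_le n (k + 1)
  have hm2 : n < (k + 1) * (m + 1) := by
    have := Nat.lt_mul_div_succ n hpos
    simpa [hm] using this
  have hm3 : m * 2 ≤ n := by nlinarith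
  have hm4 : m + 2 * (k + 1) ≤ n := by nlinarith
  refine ⟨m, by omega, ?_⟩
  have hnpos : 0 < n := by nlinarith
  have hn0 : (0 : ℝ) < n := by exact_mod_cast hnpos
  have h3 := (hN n hnN).le
  have hA : (n : ℝ) / ((k : ℝ) + 1) - 1 ≤ m := by
    have : (n : ℝ) < ((k : ℝ) + 1) * ((m : ℝ) + 1) := by exact_mod_cast hm2
    rw [sub_le_iff_le_add, div_le_iff₀ (by positivity)]
    nlinarith
  have hB : (m : ℝ) ≤ (n : ℝ) / ((k : ℝ) + 1) := by
    have : ((k : ℝ) + 1) * (m : ℝ) ≤ n := by exact_mod_cast hm1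
    rw [le_div_iff₀ (by positivity)]
    linarith
  have hC : (((n - (k + 1) - m + 1 - k : ℕ) : ℝ)) ^ k
      ≤ ((n - (k + 1) - m).descFactorial k : ℕ) := by
    exact_mod_cast Nat.pow_sub_le_descFactorial _ _
  have hD : (((n - (k + 1) - m + 1 - k : ℕ) : ℝ)) = (n : ℝ) - m - 2 * k := by
    have : n - (k + 1) - m + 1 - k = n - m - 2 * k := by omega
    rw [this, Nat.cast_sub (by omega), Nat.cast_sub (by omega)]
    push_cast
    ring
  have hE0 : 0 ≤ (n : ℝ) - (n : ℝ) / ((k : ℝ) + 1) - 2 * ((k : ℝ) + 1) := by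
    have h6 : (4 : ℝ) * (k + 1) * (k + 1) ≤ n := by exact_mod_cast hn4
    have h7 : (n : ℝ) / ((k : ℝ) + 1) ≤ n / 2 := by
      apply div_le_div_of_nonneg_left hn0.le (by norm_num)
      have : (1 : ℝ) ≤ k := by exact_mod_cast hk
      linarith
    nlinarith
  have hE : (n : ℝ) - (n : ℝ) / ((k : ℝ) + 1) - 2 * ((k : ℝ) + 1) ≤ (n : ℝ) - m - 2 * k := by
    linarith
  unfold PP
  simp only [Nat.add_sub_cancel]
  push_cast
  calc (cc (k + 1) - ε) * (n : ℝ) ^ (k + 1)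
      ≤ (((k.factorial : ℕ) : ℝ) * (1 / ((k : ℝ) + 1) - (1 : ℝ) / (n : ℝ))
      * (1 - 1 / ((k : ℝ) + 1) - 2 * ((k : ℝ) + 1) * ((1 : ℝ) / (n : ℝ))) ^ k)
        * (n : ℝ) ^ (k + 1) := by gcongr
    _ = ((k.factorial : ℕ) : ℝ) * ((n : ℝ) / ((k : ℝ) + 1) - 1)
      * ((n : ℝ) - (n : ℝ) / ((k : ℝ) + 1) - 2 * ((k : ℝ) + 1)) ^ k := by
        have e1 : (n : ℝ) / ((k : ℝ) + 1) - 1 = (1 / ((k : ℝ) + 1) - (1 : ℝ) / (n : ℝ)) * n := by
          field_simp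
        have e2 : (n : ℝ) - (n : ℝ) / ((k : ℝ) + 1) - 2 * ((k : ℝ) + 1)
            = (1 - 1 / ((k : ℝ) + 1) - 2 * ((k : ℝ) + 1) * ((1 : ℝ) / (n : ℝ))) * n := by
          field_simp
        rw [e1, e2, mul_pow, pow_succ]
        ring
    _ ≤ ((k.factorial : ℕ) : ℝ) * (m : ℝ) * ((n - (k + 1) - m).descFactorial k : ℕ) := by
        apply mul_le_mul
        · gcongr
        · exact le_trans (pow_le_pow_left₀ hE0 hE k) (by rw [← hD]; exact hC)
        · positivity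
        · positivity

end Pool.Agent.Y893.PK
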