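import Pool.Agent.Y494.PK.Stm

/-!
Project PK (MP_490135_co), job PK-SUM: summation of the pointwise bounds.
-/

namespace Pool.Agent.Y893.PK

open Pool.Agent.Y494.PK Classical

/-- one label -/
def LD {V ι : Type} (W : Set V) (c : V → ι) (D : ι) : Set V := {w | w ∈ W ∧ c w = D}

/-- bad labels -/
def BD {V ι : Type} (W : Set V) (c : V → ι) (Gd : Set ι) : Set V := {w | w ∈ W ∧ c w ∉ Gd}

theorem mem_LD {V ι : Type} (W : Set V) (c : V → ι) (D : ι) (v : V) :
    v ∈ LD W c D ↔ v ∈ W ∧ c v = D := Iff.rfl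

/-- number of elements, as a real sum of indicators -/
noncomputable def N {V : Type} [Fintype V] (S : Set V) : ℝ := ∑ v : V, if v ∈ S then (1 : ℝ) else 0

theorem N_nonneg {V : Type} [Fintype V] (S : Set V) : 0 ≤ N S := by
  unfold N
  apply Finset.sum_nonneg
  intro v _
  split_ifs <;> norm_num

theorem N_univ_le {V : Type} [Fintype V] (S : Set V) : N S ≤ Fintype.card V := by
  unfold N
  calc (∑ v : V, if v ∈ S then (1 : ℝ) else 0) ≤ ∑ _v : V, (1 : ℝ) := by
        apply Finset.sum_le_sum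
        intro v _
        split_ifs <;> norm_num
    _ = Fintype.card V := by simp

theorem N_add_le {V : Type} [Fintype V] (S T : Set V) (h : ∀ v ∈ S, v ∉ T) :
    N S + N T ≤ Fintype.card V := by
  unfold N
  rw [← Finset.sum_add_distrib]
  calc (∑ v : V, ((if v ∈ S then (1 : ℝ) else 0) + if v ∈ T then (1 : ℝ) else 0))
      ≤ ∑ _v : V, (1 : ℝ) := by
        apply Finset.sum_le_sum
        intro v _
        by_cases h1 : v ∈ S
        · rw [if_pos h1, if_neg (h v h1)]; norm_num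
        · rw [if_neg h1]; split_ifs <;> norm_num
    _ = Fintype.card V := by simp

theorem N_mono_add {V : Type} [Fintype V] (S T W : Set V) (h : ∀ v ∈ S, v ∉ T)
    (hS : ∀ v ∈ S, v ∈ W) (hT : ∀ v ∈ T, v ∈ W) : N S + N T ≤ N W := by
  unfold N
  rw [← Finset.sum_add_distrib]
  apply Finset.sum_le_sum
  intro v _
  by_cases h1 : v ∈ S
  · rw [if_pos h1, if_neg (h v h1), if_pos (hS v h1)]; norm_num
  · rw [if_neg h1]
    by_cases h2 : v ∈ T
    · rw [if_pos h2, if_pos (hT v h2)]; norm_num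
    · rw [if_neg h2]; split_ifs <;> norm_num

theorem prodsum {V : Type} [Fintype V] {m : ℕ} (S : Fin m → Set V) :
    (∑ x : Fin m → V, if ∀ k, x k ∈ S k then (1 : ℝ) else 0) = ∏ k, N (S k) := by
  have h := Finset.prod_univ_sum (t := fun _ : Fin m => (Finset.univ : Finset V))
    (f := fun k v => if v ∈ S k then (1 : ℝ) else 0)
  rw [Fintype.piFinset_univ] at h
  unfold N
  rw [h]
  apply Finset.sum_congr rfl
  intro x _
  rw [Finset.prod_ite_zero]
  simp

theorem sum_full {V : Type} [Fintype V] (r : ℕ) (S : Set V) :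
    (∑ x : Fin (r + 1) → V, if ∀ k, x k ∈ S then (1 : ℝ) else 0) = N S ^ (r + 1) := by
  rw [prodsum (fun _ : Fin (r + 1) => S)]
  simp

theorem sum_e {V : Type} [Fintype V] (r : ℕ) (A S : Set V) (j : Fin (r + 1)) :
    (∑ x : Fin (r + 1) → V, if ∀ k, x k ∈ (if k = j then A else S) then (1 : ℝ) else 0)
      = N A * N S ^ r := by
  rw [prodsum (fun k : Fin (r + 1) => if k = j then A else S), Fin.prod_univ_succAbove _ j]
  simp [Fin.succAbove_ne]

/-- one pairing -/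
theorem pairing {V ι : Type} [Fintype V] (W : Set V) (c : V → ι) (i0 i1 i2 i3 : Fin 4)
    (hcov : ∀ i : Fin 4, i = i0 ∨ i = i1 ∨ i = i2 ∨ i = i3) :
    (∑ x : Fin 4 → V, if (∀ k, x k ∈ W) ∧ c (x i0) = c (x i1) ∧ c (x i2) = c (x i3) ∧
      c (x i0) ≠ c (x i2) then (1 : ℝ) else 0) ≤ N W ^ 4 / 4 := by
  have h1 : (∑ x : Fin 4 → V, if (∀ k, x k ∈ W) ∧ c (x i0) = c (x i1) ∧ c (x i2) = c (x i3) ∧
      c (x i0) ≠ c (x i2) then (1 : ℝ) else 0)
      ≤ ∑ y : (V × V) × (V × V), if y.1.1 ∈ W ∧ y.1.2 ∈ W ∧ y.2.1 ∈ W ∧ y.2.2 ∈ W ∧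
        c y.2.1 = c y.1.1 ∧ c y.2.2 = c y.1.2 ∧ c y.1.1 ≠ c y.1.2 then (1 : ℝ) else 0 := by
    rw [Finset.sum_boole, Finset.sum_boole]
    have h2 : (Finset.univ.filter (fun x : Fin 4 → V => (∀ k, x k ∈ W) ∧ c (x i0) = c (x i1) ∧
        c (x i2) = c (x i3) ∧ c (x i0) ≠ c (x i2))).card
        ≤ (Finset.univ.filter (fun y : (V × V) × (V × V) => y.1.1 ∈ W ∧ y.1.2 ∈ W ∧ y.2.1 ∈ W ∧
          y.2.2 ∈ W ∧ c y.2.1 = c y.1.1 ∧ c y.2.2 = c y.1.2 ∧ c y.1.1 ≠ c y.1.2)).card := by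
      apply Finset.card_le_card_of_injOn (fun x => ((x i0, x i2), (x i1, x i3)))
      · intro x hx
        have hx' := (Finset.mem_filter.1 (Finset.mem_coe.1 hx)).2
        apply Finset.mem_coe.2
        apply Finset.mem_filter.2
        exact ⟨Finset.mem_univ _, hx'.1 _, hx'.1 _, hx'.1 _, hx'.1 _, hx'.2.1.symm,
          hx'.2.2.1.symm, hx'.2.2.2⟩
      · intro x _ y _ hxy
        simp only [Prod.mk.injEq] at hxy
        funext i
        rcases hcov i with h | h | h | h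
        · rw [h]; exact hxy.1.1
        · rw [h]; exact hxy.2.1
        · rw [h]; exact hxy.1.2
        · rw [h]; exact hxy.2.2
    exact_mod_cast h2
  refine h1.trans ?_
  rw [Fintype.sum_prod_type]
  have h3 : ∀ y : V × V, (∑ z : V × V, if y.1 ∈ W ∧ y.2 ∈ W ∧ z.1 ∈ W ∧ z.2 ∈ W ∧
        c z.1 = c y.1 ∧ c z.2 = c y.2 ∧ c y.1 ≠ c y.2 then (1 : ℝ) else 0)
      ≤ (if y.1 ∈ W then (1 : ℝ) else 0) * (if y.2 ∈ W then (1 : ℝ) else 0) * (N W ^ 2 / 4) := by
    intro y
    have hW := N_nonneg W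
    by_cases hy : y.1 ∈ W ∧ y.2 ∈ W ∧ c y.1 ≠ c y.2
    · rw [if_pos hy.1, if_pos hy.2.1]
      have h4 : (∑ z : V × V, if y.1 ∈ W ∧ y.2 ∈ W ∧ z.1 ∈ W ∧ z.2 ∈ W ∧
        c z.1 = c y.1 ∧ c z.2 = c y.2 ∧ c y.1 ≠ c y.2 then (1 : ℝ) else 0)
        = N (LD W c (c y.1)) * N (LD W c (c y.2)) := by
        unfold N
        rw [Fintype.sum_prod_type, Finset.sum_mul_sum]
        apply Finset.sum_congr rfl
        intro a _
        apply Finset.sum_congr rfl
        intro b _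
        simp only [mem_LD]
        by_cases ha : a ∈ W ∧ c a = c y.1
        · rw [if_pos ha, one_mul]
          by_cases hb : b ∈ W ∧ c b = c y.2
          · rw [if_pos hb, if_pos ⟨hy.1, hy.2.1, ha.1, hb.1, ha.2, hb.2, hy.2.2⟩]
          · rw [if_neg hb, if_neg]
            rintro ⟨_, _, _, h5, _, h6, _⟩
            exact hb ⟨h5, h6⟩
        · rw [if_neg ha, zero_mul, if_neg]
          rintro ⟨_, _, h5, _, h6, _, _⟩
          exact ha ⟨h5, h6⟩
      rw [h4]
      have h5 := N_mono_add (LD W c (c y.1)) (LD W c (c y.2)) W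
        (by
          rintro v ⟨_, h6⟩ ⟨_, h7⟩
          exact hy.2.2 (h6.symm.trans h7)) (fun v h => h.1) (fun v h => h.1)
      have h6 := N_nonneg (LD W c (c y.1))
      have h7 := N_nonneg (LD W c (c y.2))
      nlinarith [sq_nonneg (N (LD W c (c y.1)) - N (LD W c (c y.2)))]
    · have h4 : (∑ z : V × V, if y.1 ∈ W ∧ y.2 ∈ W ∧ z.1 ∈ W ∧ z.2 ∈ W ∧
        c z.1 = c y.1 ∧ c z.2 = c y.2 ∧ c y.1 ≠ c y.2 then (1 : ℝ) else 0) = 0 := by
        apply Finset.sum_eq_zero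
        intro z _
        rw [if_neg]
        rintro ⟨h5, h6, _, _, _, _, h7⟩
        exact hy ⟨h5, h6, h7⟩
      rw [h4]
      have h5 : (0 : ℝ) ≤ if y.1 ∈ W then (1 : ℝ) else 0 := by split_ifs <;> norm_num
      have h6 : (0 : ℝ) ≤ if y.2 ∈ W then (1 : ℝ) else 0 := by split_ifs <;> norm_num
      positivity
  calc _ ≤ ∑ y : V × V, (if y.1 ∈ W then (1 : ℝ) else 0) * (if y.2 ∈ W then (1 : ℝ) else 0)
        * (N W ^ 2 / 4) := Finset.sum_le_sum (fun y _ => h3 y)
    _ = N W ^ 4 / 4 := by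
        rw [← Finset.sum_mul, Fintype.sum_prod_type]
        have : (∑ a : V, ∑ b : V, (if a ∈ W then (1 : ℝ) else 0) * (if b ∈ W then (1 : ℝ) else 0))
            = N W * N W := by
          unfold N
          rw [Finset.sum_mul_sum]
        rw [this]
        ring

theorem fin4 : ∀ S S' : Finset (Fin 4), S.card = 2 → S'.card = 2 → Disjoint S S' →
    (0 ∈ S ∧ 1 ∈ S ∧ 2 ∈ S' ∧ 3 ∈ S') ∨ (0 ∈ S ∧ 2 ∈ S ∧ 1 ∈ S' ∧ 3 ∈ S') ∨
    (0 ∈ S ∧ 3 ∈ S ∧ 1 ∈ S' ∧ 2 ∈ S') ∨ (0 ∈ S' ∧ 1 ∈ S' ∧ 2 ∈ S ∧ 3 ∈ S) ∨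
    (0 ∈ S' ∧ 2 ∈ S' ∧ 1 ∈ S ∧ 3 ∈ S) ∨ (0 ∈ S' ∧ 3 ∈ S' ∧ 1 ∈ S ∧ 2 ∈ S) := by
  decide

theorem qbound {V ι : Type} [Fintype V] (W : Set V) (c : V → ι) :
    (∑ x : Fin (3 + 1) → V, if (∀ k, x k ∈ W) ∧ P22 c x then (1 : ℝ) else 0)
      ≤ 3 / 4 * N W ^ (3 + 1) := by
  have h1 := pairing W c 0 1 2 3 (by decide)
  have h2 := pairing W c 0 2 1 3 (by decide)
  have h3 := pairing W c 0 3 1 2 (by decide)
  have h4 : (∑ x : Fin 4 → V, if (∀ k, x k ∈ W) ∧ P22 (r := 3) c x then (1 : ℝ) else 0)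
      ≤ (∑ x : Fin 4 → V, if (∀ k, x k ∈ W) ∧ c (x 0) = c (x 1) ∧ c (x 2) = c (x 3) ∧
      c (x 0) ≠ c (x 2) then (1 : ℝ) else 0)
      + (∑ x : Fin 4 → V, if (∀ k, x k ∈ W) ∧ c (x 0) = c (x 2) ∧ c (x 1) = c (x 3) ∧
      c (x 0) ≠ c (x 1) then (1 : ℝ) else 0)
      + (∑ x : Fin 4 → V, if (∀ k, x k ∈ W) ∧ c (x 0) = c (x 3) ∧ c (x 1) = c (x 2) ∧
      c (x 0) ≠ c (x 1) then (1 : ℝ) else 0) := by
    rw [← Finset.sum_add_distrib, ← Finset.sum_add_distrib]
    apply Finset.sum_le_sum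
    intro x _
    have p1 : (0 : ℝ) ≤ if (∀ k, x k ∈ W) ∧ c (x 0) = c (x 1) ∧ c (x 2) = c (x 3) ∧
      c (x 0) ≠ c (x 2) then (1 : ℝ) else 0 := by split_ifs <;> norm_num
    have p2 : (0 : ℝ) ≤ if (∀ k, x k ∈ W) ∧ c (x 0) = c (x 2) ∧ c (x 1) = c (x 3) ∧
      c (x 0) ≠ c (x 1) then (1 : ℝ) else 0 := by split_ifs <;> norm_num
    have p3 : (0 : ℝ) ≤ if (∀ k, x k ∈ W) ∧ c (x 0) = c (x 3) ∧ c (x 1) = c (x 2) ∧
      c (x 0) ≠ c (x 1) then (1 : ℝ) else 0 := by split_ifs <;> norm_num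
    by_cases hx : (∀ k, x k ∈ W) ∧ P22 (r := 3) c x
    · rw [if_pos hx]
      obtain ⟨hW, _, D, D', hDD, hD, hD'⟩ := hx
      have e1 : (Finset.univ.filter (fun k : Fin 4 => c (x k) = D)).card = 2 := by
        rw [← hD, Set.ncard_eq_toFinset_card']
        congr 1
        ext k
        simp
      have e2 : (Finset.univ.filter (fun k : Fin 4 => c (x k) = D')).card = 2 := by
        rw [← hD', Set.ncard_eq_toFinset_card']
        congr 1
        ext k
        simp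
      have e3 : Disjoint (Finset.univ.filter (fun k : Fin 4 => c (x k) = D))
          (Finset.univ.filter (fun k : Fin 4 => c (x k) = D')) := by
        rw [Finset.disjoint_left]
        intro k hk hk'
        exact hDD ((Finset.mem_filter.1 hk).2.symm.trans (Finset.mem_filter.1 hk').2)
      have e4 := fin4 _ _ e1 e2 e3
      simp only [Finset.mem_filter, Finset.mem_univ, true_and] at e4
      rcases e4 with ⟨a, b, d, e⟩ | ⟨a, b, d, e⟩ | ⟨a, b, d, e⟩ | ⟨a, b, d, e⟩ | ⟨a, b, d, e⟩ |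
        ⟨a, b, d, e⟩
      · rw [if_pos (show (∀ k, x k ∈ W) ∧ c (x 0) = c (x 1) ∧ c (x 2) = c (x 3) ∧
          c (x 0) ≠ c (x 2) from ⟨hW, by rw [a, b], by rw [d, e], by rw [a, d]; exact hDD⟩)]
        linarith
      · rw [if_pos (show (∀ k, x k ∈ W) ∧ c (x 0) = c (x 2) ∧ c (x 1) = c (x 3) ∧
          c (x 0) ≠ c (x 1) from ⟨hW, by rw [a, b], by rw [d, e], by rw [a, d]; exact hDD⟩)]
        linarith
      · rw [if_pos (show (∀ k, x k ∈ W) ∧ c (x 0) = c (x 3) ∧ c (x 1) = c (x 2) ∧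
          c (x 0) ≠ c (x 1) from ⟨hW, by rw [a, b], by rw [d, e], by rw [a, d]; exact hDD⟩)]
        linarith
      · rw [if_pos (show (∀ k, x k ∈ W) ∧ c (x 0) = c (x 1) ∧ c (x 2) = c (x 3) ∧
          c (x 0) ≠ c (x 2) from ⟨hW, by rw [a, b], by rw [d, e], by rw [a, d]; exact hDD.symm⟩)]
        linarith
      · rw [if_pos (show (∀ k, x k ∈ W) ∧ c (x 0) = c (x 2) ∧ c (x 1) = c (x 3) ∧
          c (x 0) ≠ c (x 1) from ⟨hW, by rw [a, b], by rw [d, e], by rw [a, d]; exact hDD.symm⟩)]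
        linarith
      · rw [if_pos (show (∀ k, x k ∈ W) ∧ c (x 0) = c (x 3) ∧ c (x 1) = c (x 2) ∧
          c (x 0) ≠ c (x 1) from ⟨hW, by rw [a, b], by rw [d, e], by rw [a, d]; exact hDD.symm⟩)]
        linarith
    · rw [if_neg hx]
      linarith
  have h5 : N W ^ (3 + 1) = N W ^ 4 := rfl
  rw [h5]
  calc _ ≤ _ := h4
    _ ≤ 3 / 4 * N W ^ 4 := by linarith

/-- the pointwise bound -/
theorem pointwise {r : ℕ} (hr : 3 ≤ r) {V : Type} [Fintype V] {ι : Type} (A W : Set V)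
    (c : V → ι) (Gd : Set ι) (K : (Fin (r + 1) → V) → ℝ) (k1 k' th : ℝ)
    (hk1 : 0 ≤ k1) (hk' : 0 < k') (hth : 0 ≤ th)
    (H1 : ∀ x, (∃ j, x j ∉ A ∧ x j ∉ W) → K x ≤ 0)
    (H2 : ∀ x j k, j ≠ k → x j ∈ A → x k ∈ A → K x ≤ 0)
    (H3 : ∀ x j, x j ∈ A → K x ≤ k1)
    (H4 : ∀ x j, x j ∈ A → ¬ (∃ D ∈ Gd, ∀ k, k ≠ j → c (x k) = D) → K x ≤ 1 / (r : ℝ))
    (H5 : ∀ x j, x j ∈ A → ¬ (∃ D ∈ Gd, ∀ k, k ≠ j → c (x k) = D) →
      (∃ k, k ≠ j ∧ c (x k) ∈ Gd) → K x ≤ 0)
    (H6 : ∀ x, (∀ j, x j ∉ A) → K x ≤ k' + if P22 c x then th else 0)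
    (H7 : ∀ x, (∃ D ∈ Gd, ∀ k, c (x k) = D) → K x ≤ 0) (x : Fin (r + 1) → V) :
    K x ≤ ∑ j, (k1 * (∑ D ∈ (Finset.univ.image c).filter (· ∈ Gd),
          if ∀ k, x k ∈ (if k = j then A else (LD W c D)) then (1 : ℝ) else 0)
        + 1 / (r : ℝ) * (if ∀ k, x k ∈ (if k = j then A else (BD W c Gd))
            then (1 : ℝ) else 0))
      + k' * ((if ∀ k, x k ∈ W then (1 : ℝ) else 0)
        - ∑ D ∈ (Finset.univ.image c).filter (· ∈ Gd),
            if ∀ k, x k ∈ (LD W c D) then (1 : ℝ) else 0)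
      + th * (if (∀ k, x k ∈ W) ∧ P22 c x then (1 : ℝ) else 0) := by
  set s : Finset ι := (Finset.univ.image c).filter (· ∈ Gd) with hs
  have hr0 : (0 : ℝ) < r := by
    have : 0 < r := by omega
    exact_mod_cast this
  have t1 : ∀ j D, (0 : ℝ) ≤ if ∀ k, x k ∈ (if k = j then A else (LD W c D))
      then (1 : ℝ) else 0 := by
    intro j D; split_ifs <;> norm_num
  have t2 : ∀ j, (0 : ℝ) ≤ if ∀ k, x k ∈ (if k = j then A else (BD W c Gd))
      then (1 : ℝ) else 0 := by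
    intro j; split_ifs <;> norm_num
  have t3 : (0 : ℝ) ≤ if (∀ k, x k ∈ W) ∧ P22 c x then (1 : ℝ) else 0 := by
    split_ifs <;> norm_num
  have t4 : (∑ D ∈ s, if ∀ k, x k ∈ (LD W c D) then (1 : ℝ) else 0)
      ≤ if ∀ k, x k ∈ W then (1 : ℝ) else 0 := by
    calc (∑ D ∈ s, if ∀ k, x k ∈ (LD W c D) then (1 : ℝ) else 0)
        ≤ ∑ D ∈ s, if D = c (x 0) then (if ∀ k, x k ∈ W then (1 : ℝ) else 0) else 0 := by
          apply Finset.sum_le_sum
          intro D _
          by_cases h : ∀ k, x k ∈ (LD W c D)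
          · rw [if_pos h, if_pos (h 0).2.symm, if_pos (fun k => (h k).1)]
          · rw [if_neg h]
            split_ifs <;> norm_num
      _ ≤ _ := by
          rw [Finset.sum_ite_eq']
          split_ifs <;> norm_num
  have u1 : ∀ j, (0 : ℝ) ≤ k1 * (∑ D ∈ s,
          if ∀ k, x k ∈ (if k = j then A else (LD W c D)) then (1 : ℝ) else 0)
        + 1 / (r : ℝ) * (if ∀ k, x k ∈ (if k = j then A else (BD W c Gd))
            then (1 : ℝ) else 0) := by
    intro j
    have a1 := Finset.sum_nonneg (fun D (_ : D ∈ s) => t1 j D)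
    have a2 := mul_nonneg hk1 a1
    have a3 := mul_nonneg (show (0 : ℝ) ≤ 1 / (r : ℝ) by positivity) (t2 j)
    linarith
  have u2 := Finset.sum_nonneg (fun j (_ : j ∈ (Finset.univ : Finset (Fin (r + 1)))) => u1 j)
  have u3 := mul_nonneg hk'.le (sub_nonneg.2 t4)
  have u4 := mul_nonneg hth t3
  by_cases c1 : ∃ j, x j ∉ A ∧ x j ∉ W
  · have := H1 x c1
    linarith
  push Not at c1
  by_cases c2 : ∃ j, x j ∈ A
  · obtain ⟨j, hj⟩ := c2
    by_cases c3 : ∃ k, j ≠ k ∧ x k ∈ A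
    · obtain ⟨k, hk, hk2⟩ := c3
      have := H2 x j k hk hj hk2
      linarith
    push Not at c3
    have hW : ∀ k, k ≠ j → x k ∈ W := fun k hk => c1 k (c3 k hk.symm)
    have u5 := Finset.single_le_sum (f := fun j => k1 * (∑ D ∈ s,
          if ∀ k, x k ∈ (if k = j then A else (LD W c D)) then (1 : ℝ) else 0)
        + 1 / (r : ℝ) * (if ∀ k, x k ∈ (if k = j then A else (BD W c Gd))
            then (1 : ℝ) else 0)) (fun j _ => u1 j) (Finset.mem_univ j)
    by_cases c4 : ∃ D ∈ Gd, ∀ k, k ≠ j → c (x k) = D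
    · obtain ⟨D, hD, hD2⟩ := c4
      obtain ⟨k0, hk0⟩ : ∃ k0 : Fin (r + 1), k0 ≠ j := by
        by_cases h0 : j = 0
        · refine ⟨⟨1, by omega⟩, ?_⟩
          rw [h0]
          intro h
          have h9 : (1 : ℕ) = 0 := congrArg Fin.val h
          omega
        · exact ⟨0, fun h => h0 h.symm⟩
      have hDs : D ∈ s := by
        rw [hs, Finset.mem_filter, Finset.mem_image]
        exact ⟨⟨x k0, Finset.mem_univ _, hD2 k0 hk0⟩, hD⟩
      have u6 := Finset.single_le_sum (f := fun D => if ∀ k, x k ∈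
        (if k = j then A else (LD W c D)) then (1 : ℝ) else 0)
        (fun D _ => t1 j D) hDs
      rw [if_pos (show ∀ k, x k ∈ (if k = j then A else (LD W c D)) by
        intro k
        by_cases hkj : k = j
        · rw [if_pos hkj, hkj]; exact hj
        · rw [if_neg hkj]; exact ⟨hW k hkj, hD2 k hkj⟩)] at u6
      have u7 := mul_le_mul_of_nonneg_left u6 hk1
      have u8 := mul_nonneg (show (0 : ℝ) ≤ 1 / (r : ℝ) by positivity) (t2 j)
      have := H3 x j hj
      linarith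
    · by_cases c5 : ∃ k, k ≠ j ∧ c (x k) ∈ Gd
      · have := H5 x j hj c4 c5
        linarith
      · push Not at c5
        have u6 : (1 : ℝ) = (if ∀ k, x k ∈ (if k = j then A else (BD W c Gd))
            then (1 : ℝ) else 0) := by
          rw [if_pos]
          intro k
          by_cases hkj : k = j
          · rw [if_pos hkj, hkj]; exact hj
          · rw [if_neg hkj]; exact ⟨hW k hkj, c5 k hkj⟩
        rw [← u6] at u5
        have a1 := Finset.sum_nonneg (fun D (_ : D ∈ s) => t1 j D)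
        have a2 := mul_nonneg hk1 a1
        have := H4 x j hj c4
        linarith
  · push Not at c2
    have hW : ∀ k, x k ∈ W := fun k => c1 k (c2 k)
    by_cases c3 : ∃ D ∈ Gd, ∀ k, c (x k) = D
    · have := H7 x c3
      linarith
    · have e1 : (∑ D ∈ s, if ∀ k, x k ∈ (LD W c D) then (1 : ℝ) else 0) = 0 := by
        apply Finset.sum_eq_zero
        intro D hD
        rw [if_neg]
        intro h
        exact c3 ⟨D, (Finset.mem_filter.1 hD).2, fun k => (h k).2⟩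
      rw [e1, if_pos hW]
      have h6 := H6 x c2
      by_cases c4 : P22 c x
      · rw [if_pos c4] at h6
        rw [if_pos ⟨hW, c4⟩]
        linarith
      · rw [if_neg c4] at h6
        linarith

theorem N_parts {V ι : Type} [Fintype V] (W : Set V) (c : V → ι) (Gd : Set ι) :
    N (BD W c Gd) + ∑ D ∈ (Finset.univ.image c).filter (· ∈ Gd),
      N (LD W c D) ≤ N W := by
  unfold N
  rw [Finset.sum_comm, ← Finset.sum_add_distrib]
  apply Finset.sum_le_sum
  intro v _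
  by_cases hv : v ∈ W
  · rw [if_pos hv]
    by_cases hc : c v ∈ Gd
    · rw [if_neg (show v ∉ (BD W c Gd) from fun h => h.2 hc), zero_add]
      calc (∑ D ∈ (Finset.univ.image c).filter (· ∈ Gd),
            if v ∈ (LD W c D) then (1 : ℝ) else 0)
          ≤ ∑ D ∈ (Finset.univ.image c).filter (· ∈ Gd), if D = c v then (1 : ℝ) else 0 := by
            apply Finset.sum_le_sum
            intro D _
            by_cases h : v ∈ (LD W c D)
            · rw [if_pos h, if_pos h.2.symm]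
            · rw [if_neg h]
              split_ifs <;> norm_num
        _ ≤ 1 := by
            rw [Finset.sum_ite_eq']
            split_ifs <;> norm_num
    · rw [if_pos (show v ∈ (BD W c Gd) from ⟨hv, hc⟩)]
      have : (∑ D ∈ (Finset.univ.image c).filter (· ∈ Gd),
            if v ∈ (LD W c D) then (1 : ℝ) else 0) = 0 := by
        apply Finset.sum_eq_zero
        intro D hD
        rw [if_neg]
        intro h
        apply hc
        rw [h.2]
        exact (Finset.mem_filter.1 hD).2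
      rw [this]
      norm_num
  · rw [if_neg hv, if_neg (show v ∉ (BD W c Gd) from fun h => hv h.1), zero_add]
    apply le_of_eq
    apply Finset.sum_eq_zero
    intro D _
    rw [if_neg]
    intro h
    exact hv h.1

theorem sum (hF : S_FIN) : S_SUM := by
  intro r hr V _ ι A W c Gd K k1 k' th hAW hk1 hk1' hk' hrk' hth hr3 H1 H2 H3 H4 H5 H6 H7
  have hr0 : (0 : ℝ) < r := by
    have : 0 < r := by omega
    exact_mod_cast this
  rcases Nat.eq_zero_or_pos (Fintype.card V) with h0 | hpos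
  · have he : IsEmpty V := Fintype.card_eq_zero_iff.1 h0
    have he2 : IsEmpty (Fin (r + 1) → V) := ⟨fun x => he.elim (x 0)⟩
    rw [Finset.sum_of_isEmpty, h0]
    simp
  set s : Finset ι := (Finset.univ.image c).filter (· ∈ Gd) with hs
  have hpw := pointwise hr A W c Gd K k1 k' th hk1 hk' hth H1 H2 H3 H4 H5 H6 H7
  have hsum := Finset.sum_le_sum (fun x (_ : x ∈ (Finset.univ : Finset (Fin (r + 1) → V))) => hpw x)
  rw [← hs] at hsum
  have hq : th * (∑ x : Fin (r + 1) → V, if (∀ k, x k ∈ W) ∧ P22 c x then (1 : ℝ) else 0)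
      ≤ th * (3 / 4 * N W ^ (r + 1)) := by
    rcases hr3 with h | h
    · subst h
      exact mul_le_mul_of_nonneg_left (qbound W c) hth
    · rw [h, zero_mul, zero_mul]
  set n : ℝ := (Fintype.card V : ℝ) with hn
  have hn0 : 0 < n := by rw [hn]; exact_mod_cast hpos
  have htot : (∑ x : Fin (r + 1) → V, (∑ j, (k1 * (∑ D ∈ s,
          if ∀ k, x k ∈ (if k = j then A else (LD W c D)) then (1 : ℝ) else 0)
        + 1 / (r : ℝ) * (if ∀ k, x k ∈ (if k = j then A else (BD W c Gd))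
            then (1 : ℝ) else 0))
      + k' * ((if ∀ k, x k ∈ W then (1 : ℝ) else 0)
        - ∑ D ∈ s, if ∀ k, x k ∈ (LD W c D) then (1 : ℝ) else 0)
      + th * (if (∀ k, x k ∈ W) ∧ P22 c x then (1 : ℝ) else 0)))
      = ((r : ℝ) + 1) * (k1 * (∑ D ∈ s, N A * N (LD W c D) ^ r)
          + 1 / (r : ℝ) * (N A * N (BD W c Gd) ^ r))
        + k' * (N W ^ (r + 1) - ∑ D ∈ s, N (LD W c D) ^ (r + 1))
        + th * (∑ x : Fin (r + 1) → V, if (∀ k, x k ∈ W) ∧ P22 c x then (1 : ℝ) else 0) := by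
    rw [Finset.sum_add_distrib, Finset.sum_add_distrib, ← Finset.mul_sum, ← Finset.mul_sum,
      Finset.sum_sub_distrib, sum_full, Finset.sum_comm (s := (Finset.univ :
        Finset (Fin (r + 1) → V))) (t := s)]
    congr 1
    congr 1
    · rw [Finset.sum_comm]
      have : ∀ j : Fin (r + 1), (∑ x : Fin (r + 1) → V, (k1 * (∑ D ∈ s,
          if ∀ k, x k ∈ (if k = j then A else (LD W c D)) then (1 : ℝ) else 0)
        + 1 / (r : ℝ) * (if ∀ k, x k ∈ (if k = j then A else (BD W c Gd))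
            then (1 : ℝ) else 0)))
          = k1 * (∑ D ∈ s, N A * N (LD W c D) ^ r)
            + 1 / (r : ℝ) * (N A * N (BD W c Gd) ^ r) := by
        intro j
        rw [Finset.sum_add_distrib, ← Finset.mul_sum, ← Finset.mul_sum, sum_e,
          Finset.sum_comm (t := s)]
        congr 1
        congr 1
        apply Finset.sum_congr rfl
        intro D _
        rw [sum_e]
      rw [Finset.sum_congr rfl (fun j _ => this j), Finset.sum_const, Finset.card_univ,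
        Fintype.card_fin, nsmul_eq_mul]
      push_cast
      ring
    · congr 1
      congr 1
      apply Finset.sum_congr rfl
      intro D _
      rw [sum_full]
  rw [htot] at hsum
  -- normalisation
  set a : ℝ := N A / n with ha
  set b : ℝ := N (BD W c Gd) / n with hb
  set g : ι → ℝ := fun D => N (LD W c D) / n with hg
  set w : ℝ := N W / n with hw
  have ea : N A = a * n := by rw [ha]; field_simp
  have eb : N (BD W c Gd) = b * n := by rw [hb]; field_simp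
  have eg : ∀ D, N (LD W c D) = g D * n := by intro D; rw [hg]; field_simp
  have ew : N W = w * n := by rw [hw]; field_simp
  have ha0 : 0 ≤ a := div_nonneg (N_nonneg _) hn0.le
  have hb0 : 0 ≤ b := div_nonneg (N_nonneg _) hn0.le
  have hg0 : ∀ D, 0 ≤ g D := fun D => div_nonneg (N_nonneg _) hn0.le
  have hw0 : 0 ≤ w := div_nonneg (N_nonneg _) hn0.le
  have hparts := N_parts W c Gd
  rw [← hs] at hparts
  have hAWn := N_add_le A W hAW
  have hbgw : b + ∑ D ∈ s, g D ≤ w := by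
    have e1 : b + ∑ D ∈ s, g D
        = (N (BD W c Gd) + ∑ D ∈ s, N (LD W c D)) / n := by
      rw [add_div, Finset.sum_div]
    rw [e1, hw]
    exact div_le_div_of_nonneg_right hparts hn0.le
  have haw : a + w ≤ 1 := by
    rw [ha, hw, ← add_div]
    exact div_le_one_of_le₀ hAWn hn0.le
  have hfin := hF r hr ι s g a b k1 k' (k' + 3 / 4 * th) ha0 hb0 (fun D _ => hg0 D)
    (by linarith) hk1 hk1' hk' (by linarith) (by linarith)
  have e2 : k1 * rho r + (k' + 3 / 4 * th - k') = k1 * rho r + 3 / 4 * th := by ring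
  rw [e2] at hfin
  have hnp : 0 < n ^ (r + 1) := by positivity
  have hmain := mul_le_mul_of_nonneg_right hfin hnp.le
  refine le_trans ?_ hmain
  refine le_trans hsum ?_
  have s1 : (∑ D ∈ s, N A * N (LD W c D) ^ r) = a * (∑ D ∈ s, g D ^ r) * n ^ (r + 1) := by
    rw [Finset.mul_sum, Finset.sum_mul]
    apply Finset.sum_congr rfl
    intro D _
    rw [ea, eg, mul_pow]
    ring
  have s2 : (∑ D ∈ s, N (LD W c D) ^ (r + 1)) = (∑ D ∈ s, g D ^ (r + 1)) * n ^ (r + 1) := by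
    rw [Finset.sum_mul]
    apply Finset.sum_congr rfl
    intro D _
    rw [eg, mul_pow]
  have s3 : N A * N (BD W c Gd) ^ r = a * b ^ r * n ^ (r + 1) := by
    rw [ea, eb, mul_pow]
    ring
  have s4 : N W ^ (r + 1) ≤ (1 - a) ^ (r + 1) * n ^ (r + 1) := by
    rw [ew, ← mul_pow]
    have : w ≤ 1 - a := by linarith
    gcongr
  rw [s1, s2, s3]
  have s5 := mul_le_mul_of_nonneg_left s4 hk'.le
  have s6 := mul_le_mul_of_nonneg_left s4 (show 0 ≤ 3 / 4 * th by positivity)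
  have s7 : ((r : ℝ) + 1) * a * (k1 * ∑ i ∈ s, g i ^ r + b ^ r / (r : ℝ)) * n ^ (r + 1)
      = ((r : ℝ) + 1) * (k1 * (a * (∑ D ∈ s, g D ^ r) * n ^ (r + 1))
          + 1 / (r : ℝ) * (a * b ^ r * n ^ (r + 1))) := by ring
  linarith

end Pool.Agent.Y893.PK
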