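import Pool.Agent.Y494.PK.Stm

/-!
Project PK (MP_490135_co), job PK-TOP: the global upper bound and the main theorem on directed
paths from the non rich case, the exact structure of the rich case and the arithmetic of `PP`.
-/

namespace Pool.Agent.Y893.PK

open Pool.Agent.Y494.PK Filter Topology

theorem noLong_induce {V : Type} (G : SimpleGraph V) (l : ℕ) (h : NoLong G l) (R : Set V) :
    NoLong (G.induce R) l := by
  intro p hp
  have h1 : LP G (p.map Subtype.val) := by
    refine ⟨hp.1.map Subtype.val_injective, ?_⟩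
    rw [List.isChain_map]
    exact hp.2
  have h2 := h _ h1
  simpa using h2

theorem dp_le {V : Type} [Fintype V] (G : SimpleGraph V) (l : ℕ) :
    (DP G l).ncard ≤ (Fintype.card V) ^ (2 * l) := by
  classical
  have h1 : (DP G l).ncard ≤ (Set.univ : Set ((Fin l → V) × (Fin l → V))).ncard :=
    Set.ncard_le_ncard (Set.subset_univ _) (Set.toFinite _)
  have h2 : (Set.univ : Set ((Fin l → V) × (Fin l → V))).ncard = (Fintype.card V) ^ (2 * l) := by
    rw [Set.ncard_univ, Nat.card_eq_fintype_card, Fintype.card_prod, Fintype.card_fun,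
      Fintype.card_fin]
    ring
  rw [h2] at h1
  exact h1

theorem cc_pos (l : ℕ) (hl : 2 ≤ l) : 0 < cc l := by
  unfold cc
  have h1 : (0 : ℝ) < (l : ℝ) - 1 := by
    have : (2 : ℝ) ≤ l := by exact_mod_cast hl
    linarith
  positivity

/-- the global upper bound with a nonnegative constant -/
theorem ub' (l : ℕ) (hl : 4 ≤ l) (h : S_NR l) (hE : S_EXACT) (hP : S_PPub) :
    ∃ A : ℝ, 0 ≤ A ∧ ∀ (V : Type) [Fintype V] (G : SimpleGraph V), NoLong G l →
      ((DP G l).ncard : ℝ) ≤ 2 * cc l * (Fintype.card V : ℝ) ^ l + A := by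
  obtain ⟨ε, hε, α, hα, n₁, hNR⟩ := h
  have hc := cc_pos l (by omega)
  obtain ⟨n₂, hn₂⟩ := exists_nat_ge (3 * (l : ℝ) / α)
  set N := max n₁ n₂ with hN
  refine ⟨(N : ℝ) ^ (2 * l), by positivity, ?_⟩
  suffices H : ∀ n : ℕ, ∀ (V : Type) [Fintype V] (G : SimpleGraph V), Fintype.card V = n →
      NoLong G l → ((DP G l).ncard : ℝ) ≤ 2 * cc l * (n : ℝ) ^ l + (N : ℝ) ^ (2 * l) by
    intro V _ G hG
    exact H _ V G rfl hG
  intro n
  induction n using Nat.strong_induction_on with
  | _ n ih =>
    intro V _ G hn hG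
    rcases lt_or_ge n N with hlt | hge
    · have h1 := dp_le G l
      rw [hn] at h1
      have h2 : n ^ (2 * l) ≤ N ^ (2 * l) := Nat.pow_le_pow_left hlt.le _
      have h3 : ((DP G l).ncard : ℝ) ≤ (N : ℝ) ^ (2 * l) := by exact_mod_cast h1.trans h2
      have h4 : 0 ≤ 2 * cc l * (n : ℝ) ^ l := by positivity
      linarith
    · by_cases hr : Rich G l α
      · obtain ⟨C, v, hC, hv, hCv, h3l, hdg⟩ := hr
        have hcard : (Nat.card V : ℝ) = n := by
          rw [Nat.card_eq_fintype_card, hn]
        rw [hcard] at hdg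
        have hn2 : (n₂ : ℝ) ≤ n := by
          exact_mod_cast (le_max_right n₁ n₂).trans hge
        have h3 : 3 * (l : ℝ) ≤ α * n := by
          have := hn₂.trans hn2
          rw [div_le_iff₀ hα] at this
          linarith
        have hd3 : 3 * l ≤ dg G v := by
          have : (3 : ℝ) * (l : ℝ) ≤ dg G v := h3.trans hdg
          exact_mod_cast this
        obtain ⟨R, m, hm, hdR, hle⟩ := hE V G l (by omega) hG C v hC hv hCv h3l hd3
        rw [hn] at hm hdR hle
        have hs : R.ncard < n := by omega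
        have : Fintype R := Fintype.ofFinite _
        have hRc : Fintype.card R = R.ncard := by
          rw [Set.ncard_eq_toFinset_card', Set.toFinset_card]
        have h4 := ih R.ncard hs R (G.induce R) hRc (noLong_induce G l hG R)
        have h5 := hP l (n - R.ncard) m (by omega) (by omega)
        have h6 : ((DP G l).ncard : ℝ) ≤ 2 * (PP l (n - R.ncard) m : ℝ)
            + ((DP (G.induce R) l).ncard : ℝ) := by exact_mod_cast hle
        have h7 : ((n - R.ncard : ℕ) : ℝ) ^ l + ((R.ncard : ℕ) : ℝ) ^ l ≤ (n : ℝ) ^ l := by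
          have h8 := pow_add_pow_le (x := ((n - R.ncard : ℕ) : ℝ)) (y := ((R.ncard : ℕ) : ℝ))
            (by positivity) (by positivity) (show l ≠ 0 by omega)
          have h9 : ((n - R.ncard : ℕ) : ℝ) + ((R.ncard : ℕ) : ℝ) = n := by
            exact_mod_cast Nat.sub_add_cancel hs.le
          rwa [h9] at h8
        have h10 := mul_le_mul_of_nonneg_left h7 (show 0 ≤ 2 * cc l by positivity)
        linarith
      · have h1 := hNR V G (by rw [hn]; exact (le_max_left _ _).trans hge) hG hr
        rw [hn] at h1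
        have h2 : 2 * (cc l - ε) * (n : ℝ) ^ l ≤ 2 * cc l * (n : ℝ) ^ l := by
          have : 0 ≤ (n : ℝ) ^ l := by positivity
          have h3 := mul_nonneg hε.le this
          linarith
        have h4 : 0 ≤ (N : ℝ) ^ (2 * l) := by positivity
        linarith

theorem ub (l : ℕ) (hl : 4 ≤ l) (h : S_NR l) (hE : S_EXACT) (hP : S_PPub) : S_UB l := by
  obtain ⟨A, _, hA⟩ := ub' l hl h hE hP
  exact ⟨A, hA⟩

theorem desc_succ (k n : ℕ) :
    n.descFactorial (k + 1) + (k + 1) * n.descFactorial k = (n + 1).descFactorial (k + 1) := by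
  rw [Nat.succ_descFactorial_succ, Nat.descFactorial_succ]
  rcases lt_or_ge n k with h | h
  · rw [Nat.descFactorial_of_lt h]
    simp
  · obtain ⟨d, rfl⟩ := Nat.exists_eq_add_of_le h
    rw [Nat.add_sub_cancel_left]
    ring

theorem desc_diff (k M s : ℕ) :
    M.descFactorial (k + 1) + s * ((k + 1) * M.descFactorial k) ≤ (M + s).descFactorial (k + 1) := by
  induction s with
  | zero => simp
  | succ s ih =>
    have h1 := desc_succ k (M + s)
    have h2 : M.descFactorial k ≤ (M + s).descFactorial k :=
      Nat.descFactorial_le k (Nat.le_add_right M s)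
    have h3 : (k + 1) * M.descFactorial k ≤ (k + 1) * (M + s).descFactorial k :=
      Nat.mul_le_mul_left _ h2
    have h4 : M + (s + 1) = M + s + 1 := by ring
    rw [h4, ← h1, add_mul, one_mul]
    omega

theorem desc_pred (k M n : ℕ) (h : M ≤ n) :
    M.descFactorial (k + 1) ≤ n * M.descFactorial k := by
  rw [Nat.descFactorial_succ]
  exact Nat.mul_le_mul_right _ (by omega)

theorem top (l : ℕ) (hl : 4 ≤ l) (h : S_NR l) (hE : S_EXACT) (hP : S_PPub) (hL : S_PPlb) :
    S_TOP l := by
  obtain ⟨A, hA0, hA⟩ := ub' l hl h hE hP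
  obtain ⟨ε, hε, α, hα, n₁, hNR⟩ := h
  have hc := cc_pos l (by omega)
  obtain ⟨k, rfl⟩ : ∃ k, l = k + 2 := ⟨l - 2, by omega⟩
  set c := cc (k + 2) with hcdef
  set F : ℝ := (((k + 1).factorial : ℕ) : ℝ) with hF
  have hF0 : 0 < F := by
    rw [hF]; exact_mod_cast Nat.factorial_pos _
  set c4 : ℝ := c ^ 2 / (4 * F) with hc4
  have hc40 : 0 < c4 := by positivity
  set C1 : ℝ := c + A / 2 with hC1
  have hC10 : 0 < C1 := by positivity
  set η : ℝ := min (1 / 4) (c4 / C1) with hη
  have hη0 : 0 < η := lt_min (by norm_num) (by positivity)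
  have hη1 : η ≤ 1 / 4 := min_le_left _ _
  have hη2 : η * C1 ≤ c4 := by
    have : η ≤ c4 / C1 := min_le_right _ _
    rwa [le_div_iff₀ hC10] at this
  -- the lower bounds
  obtain ⟨N1, hN1⟩ := hL (k + 2) (by omega) ε hε
  obtain ⟨N2, hN2⟩ := hL (k + 2) (by omega) (c / 8) (by positivity)
  obtain ⟨N3, hN3⟩ := hL (k + 2) (by omega) (c * η * α) (by positivity)
  obtain ⟨N4, hN4⟩ := exists_nat_ge (4 * A / c)
  obtain ⟨N5, hN5⟩ := exists_nat_ge (A / (2 * (c * η * α)))
  obtain ⟨N6, hN6⟩ := exists_nat_ge (3 * ((k + 2 : ℕ) : ℝ) / α)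
  refine ⟨1 + n₁ + N1 + N2 + N3 + N4 + N5 + N6, ?_⟩
  intro n hn G hG
  have hn1 : 1 ≤ n := by omega
  have hnpos : (0 : ℝ) < n := by exact_mod_cast hn1
  have hn1' : (1 : ℝ) ≤ n := by exact_mod_cast hn1
  have hcard : Fintype.card (Fin n) = n := Fintype.card_fin n
  have hpow : (n : ℝ) ≤ (n : ℝ) ^ (k + 2) := le_self_pow₀ hn1' (by omega)
  by_cases hr : Rich G (k + 2) α
  · obtain ⟨C, v, hC, hv, hCv, h3l, hdg⟩ := hr
    rw [Nat.card_eq_fintype_card, hcard] at hdg
    have hd3 : 3 * (k + 2) ≤ dg G v := by
      have h1 : (N6 : ℝ) ≤ n := by exact_mod_cast (by omega : N6 ≤ n)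
      have h2 := hN6.trans h1
      rw [div_le_iff₀ hα] at h2
      have : (3 : ℝ) * ((k + 2 : ℕ) : ℝ) ≤ dg G v := by linarith
      exact_mod_cast this
    obtain ⟨R, m, hm, hdR, hle⟩ := hE (Fin n) G (k + 2) (by omega) hG C v hC hv hCv h3l hd3
    rw [hcard] at hm hdR hle
    have : Fintype R := Fintype.ofFinite _
    have hRc : Fintype.card R = R.ncard := by
      rw [Set.ncard_eq_toFinset_card', Set.toFinset_card]
    have h4 := hA R (G.induce R) (noLong_induce G (k + 2) hG R)
    rw [hRc] at h4
    set s := R.ncard with hs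
    have hsn : s < n := by omega
    have h5 := hP (k + 2) (n - s) m (by omega) (by omega)
    have h6 : ((DP G (k + 2)).ncard : ℝ) ≤ 2 * (PP (k + 2) (n - s) m : ℝ)
        + ((DP (G.induce R) (k + 2)).ncard : ℝ) := by exact_mod_cast hle
    have hns : ((n - s : ℕ) : ℝ) = (n : ℝ) - s := by
      rw [Nat.cast_sub hsn.le]
    have hs0 : (0 : ℝ) ≤ s := by positivity
    have hsn' : (s : ℝ) ≤ n := by exact_mod_cast hsn.le
    rcases Nat.eq_zero_or_pos s with hs00 | hspos
    · -- s = 0
      refine ⟨m, by omega, ?_⟩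
      have hRe : R = ∅ := by
        rw [← Set.ncard_eq_zero (Set.toFinite R)]
        exact hs00
      have hDP0 : (DP (G.induce R) (k + 2)).ncard = 0 := by
        rw [Set.ncard_eq_zero (Set.toFinite _)]
        apply Set.eq_empty_of_forall_notMem
        rintro ⟨u, w⟩ _
        exact Set.eq_empty_iff_forall_notMem.1 hRe (u 0).1 (u 0).2
      rw [hDP0, hs00, Nat.sub_zero] at hle
      omega
    · have hs1 : (1 : ℝ) ≤ s := by exact_mod_cast hspos
      rcases le_or_gt ((s : ℝ)) (η * n) with hsη | hsη
      · rcases le_or_gt ((PP (k + 2) (n - s) m : ℕ) : ℝ) (c / 2 * (n : ℝ) ^ (k + 2)) with hp | hp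
        · -- case a
          obtain ⟨m', hm', hm''⟩ := hN2 n (by omega)
          refine ⟨m', hm', ?_⟩
          have h7 : (s : ℝ) ^ (k + 2) ≤ 1 / 4 * (n : ℝ) ^ (k + 2) := by
            calc (s : ℝ) ^ (k + 2) ≤ (η * n) ^ (k + 2) := by gcongr
              _ = η ^ (k + 2) * (n : ℝ) ^ (k + 2) := by rw [mul_pow]
              _ ≤ η * (n : ℝ) ^ (k + 2) := by
                  gcongr
                  exact pow_le_of_le_one hη0.le (by linarith) (by omega)
              _ ≤ 1 / 4 * (n : ℝ) ^ (k + 2) := by gcongr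
          have h8 : A ≤ c / 4 * (n : ℝ) ^ (k + 2) := by
            have h1 : (N4 : ℝ) ≤ n := by exact_mod_cast (by omega : N4 ≤ n)
            have h2 := (hN4.trans h1).trans hpow
            rw [div_le_iff₀ hc] at h2
            linarith
          have h10 := mul_le_mul_of_nonneg_left h7 (show 0 ≤ 2 * c by positivity)
          have h9 : ((DP G (k + 2)).ncard : ℝ) ≤ 2 * (PP (k + 2) n m' : ℕ) := by
            linarith
          exact_mod_cast h9
        · -- case b
          refine ⟨m, by omega, ?_⟩
          set M := n - s - (k + 2) - m with hM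
          have hMn : M ≤ n := by omega
          have hPP1 : PP (k + 2) (n - s) m = (k + 1).factorial * m * M.descFactorial (k + 1) := by
            unfold PP
            rfl
          have hPP2 : PP (k + 2) n m = (k + 1).factorial * m * (M + s).descFactorial (k + 1) := by
            unfold PP
            have : n - (k + 2) - m = M + s := by omega
            rw [this]
            rfl
          have e1 : M.descFactorial (k + 1) ≤ n ^ (k + 1) :=
            (Nat.descFactorial_le_pow _ _).trans (Nat.pow_le_pow_left hMn _)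
          have e1' : ((M.descFactorial (k + 1) : ℕ) : ℝ) ≤ (n : ℝ) ^ (k + 1) := by exact_mod_cast e1
          have e2 := desc_diff k M s
          have e3 := desc_pred k M n hMn
          have e3' : ((M.descFactorial (k + 1) : ℕ) : ℝ) ≤ n * ((M.descFactorial k : ℕ) : ℝ) := by
            exact_mod_cast e3
          have hmn : (m : ℝ) ≤ n := by exact_mod_cast (by omega : m ≤ n)
          have hm0 : (0 : ℝ) ≤ m := by positivity
          have hD0 : (0 : ℝ) ≤ ((M.descFactorial k : ℕ) : ℝ) := by positivity
          have hp' : c / 2 * (n : ℝ) ^ (k + 2) < F * m * ((M.descFactorial (k + 1) : ℕ) : ℝ) := by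
            rw [hPP1] at hp
            push_cast at hp
            exact hp
          have hpn : (0 : ℝ) < (n : ℝ) ^ (k + 1) := by positivity
          -- m is large
          have g1 : c / 2 * n ≤ F * m := by
            have : c / 2 * n * (n : ℝ) ^ (k + 1) ≤ F * m * (n : ℝ) ^ (k + 1) := by
              calc c / 2 * n * (n : ℝ) ^ (k + 1) = c / 2 * (n : ℝ) ^ (k + 2) := by ring
                _ ≤ F * m * ((M.descFactorial (k + 1) : ℕ) : ℝ) := hp'.le
                _ ≤ F * m * (n : ℝ) ^ (k + 1) := by gcongr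
            exact le_of_mul_le_mul_right this hpn
          -- the derivative is large
          have g2 : c / 2 * (n : ℝ) ^ k ≤ F * ((M.descFactorial k : ℕ) : ℝ) := by
            have hn2 : (0 : ℝ) < (n : ℝ) * n := by positivity
            have : c / 2 * (n : ℝ) ^ k * ((n : ℝ) * n)
                ≤ F * ((M.descFactorial k : ℕ) : ℝ) * ((n : ℝ) * n) := by
              calc c / 2 * (n : ℝ) ^ k * ((n : ℝ) * n) = c / 2 * (n : ℝ) ^ (k + 2) := by ring
                _ ≤ F * m * ((M.descFactorial (k + 1) : ℕ) : ℝ) := hp'.le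
                _ ≤ F * n * (n * ((M.descFactorial k : ℕ) : ℝ)) := by gcongr
                _ = F * ((M.descFactorial k : ℕ) : ℝ) * ((n : ℝ) * n) := by ring
            exact le_of_mul_le_mul_right this hn2
          have g3 : c4 * s * (n : ℝ) ^ (k + 1)
              ≤ F * m * (s * ((k + 1) * ((M.descFactorial k : ℕ) : ℝ))) := by
            have g4 : c4 * (n : ℝ) ^ (k + 1) ≤ F * m * ((M.descFactorial k : ℕ) : ℝ) := by
              have g5 : (c / 2 * n) * (c / 2 * (n : ℝ) ^ k)
                  ≤ (F * m) * (F * ((M.descFactorial k : ℕ) : ℝ)) := by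
                apply mul_le_mul g1 g2 (by positivity) (by positivity)
              have g6 : F * (c4 * (n : ℝ) ^ (k + 1)) = (c / 2 * n) * (c / 2 * (n : ℝ) ^ k) := by
                rw [hc4]
                field_simp
                ring
              have g7 : (F * m) * (F * ((M.descFactorial k : ℕ) : ℝ))
                  = F * (F * m * ((M.descFactorial k : ℕ) : ℝ)) := by ring
              rw [← g6, g7] at g5
              exact le_of_mul_le_mul_left g5 hF0
            have g8 : F * m * ((M.descFactorial k : ℕ) : ℝ)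
                ≤ F * m * (((k : ℝ) + 1) * ((M.descFactorial k : ℕ) : ℝ)) := by
              have : (1 : ℝ) ≤ (k : ℝ) + 1 := by
                have : (0 : ℝ) ≤ k := by positivity
                linarith
              have g9 : ((M.descFactorial k : ℕ) : ℝ)
                  ≤ ((k : ℝ) + 1) * ((M.descFactorial k : ℕ) : ℝ) := le_mul_of_one_le_left hD0 this
              gcongr
            calc c4 * s * (n : ℝ) ^ (k + 1) = s * (c4 * (n : ℝ) ^ (k + 1)) := by ring
              _ ≤ s * (F * m * (((k : ℝ) + 1) * ((M.descFactorial k : ℕ) : ℝ))) := by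
                  apply mul_le_mul_of_nonneg_left (g4.trans g8) hs0
              _ = F * m * (s * ((k + 1) * ((M.descFactorial k : ℕ) : ℝ))) := by ring
          have e2' : ((M.descFactorial (k + 1) : ℕ) : ℝ)
              + s * ((k + 1) * ((M.descFactorial k : ℕ) : ℝ))
              ≤ (((M + s).descFactorial (k + 1) : ℕ) : ℝ) := by exact_mod_cast e2
          have g10 : (PP (k + 2) (n - s) m : ℝ) + c4 * s * (n : ℝ) ^ (k + 1)
              ≤ (PP (k + 2) n m : ℝ) := by
            rw [hPP1, hPP2]
            push_cast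
            rw [← hF]
            have : F * m * (((M.descFactorial (k + 1) : ℕ) : ℝ)
              + s * ((k + 1) * ((M.descFactorial k : ℕ) : ℝ)))
              ≤ F * m * (((M + s).descFactorial (k + 1) : ℕ) : ℝ) := by gcongr
            linarith
          have g11 : 2 * c * (s : ℝ) ^ (k + 2) + A ≤ 2 * (c4 * s * (n : ℝ) ^ (k + 1)) := by
            have hsp : (1 : ℝ) ≤ (s : ℝ) ^ (k + 2) := one_le_pow₀ hs1
            have g12 : 2 * c * (s : ℝ) ^ (k + 2) + A ≤ 2 * C1 * (s : ℝ) ^ (k + 2) := by
              rw [hC1]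
              have := mul_le_mul_of_nonneg_left hsp hA0
              linarith
            have g13 : (s : ℝ) ^ (k + 1) ≤ η * (n : ℝ) ^ (k + 1) := by
              calc (s : ℝ) ^ (k + 1) ≤ (η * n) ^ (k + 1) := by gcongr
                _ = η ^ (k + 1) * (n : ℝ) ^ (k + 1) := by rw [mul_pow]
                _ ≤ η * (n : ℝ) ^ (k + 1) := by
                    gcongr
                    exact pow_le_of_le_one hη0.le (by linarith) (by omega)
            calc 2 * c * (s : ℝ) ^ (k + 2) + A ≤ 2 * C1 * (s : ℝ) ^ (k + 2) := g12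
              _ = 2 * C1 * s * (s : ℝ) ^ (k + 1) := by ring
              _ ≤ 2 * C1 * s * (η * (n : ℝ) ^ (k + 1)) := by gcongr
              _ = 2 * ((η * C1) * s * (n : ℝ) ^ (k + 1)) := by ring
              _ ≤ 2 * (c4 * s * (n : ℝ) ^ (k + 1)) := by gcongr
          have h9 : ((DP G (k + 2)).ncard : ℝ) ≤ 2 * (PP (k + 2) n m : ℕ) := by
            linarith
          exact_mod_cast h9
      · -- s large
        obtain ⟨m', hm', hm''⟩ := hN3 n (by omega)
        refine ⟨m', hm', ?_⟩
        have hdn : α * n ≤ (n : ℝ) - s := by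
          have : ((dg G v + s : ℕ) : ℝ) ≤ n := by exact_mod_cast hdR
          push_cast at this
          linarith
        set x : ℝ := (s : ℝ) / n with hx
        have hxs : (s : ℝ) = x * n := by
          rw [hx]; field_simp
        have hx0 : 0 ≤ x := by positivity
        have hx1 : x ≤ 1 := by
          rw [hx]; exact div_le_one_of_le₀ hsn' hnpos.le
        have hxη : η ≤ x := by
          rw [hxs] at hsη
          exact (lt_of_mul_lt_mul_right hsη hnpos.le).le
        have hxα : α ≤ 1 - x := by
          rw [hxs] at hdn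
          have : α * n ≤ (1 - x) * n := by linarith
          exact le_of_mul_le_mul_right this hnpos
        have h7 : ((n : ℝ) - s) ^ (k + 2) + (s : ℝ) ^ (k + 2)
            ≤ (1 - 2 * (η * α)) * (n : ℝ) ^ (k + 2) := by
          have e1 : ((n : ℝ) - s) = (1 - x) * n := by rw [hxs]; ring
          rw [e1, hxs, mul_pow, mul_pow, ← add_mul]
          have e2 : (1 - x) ^ (k + 2) ≤ (1 - x) ^ 2 :=
            pow_le_pow_of_le_one (by linarith) (by linarith) (by omega)
          have e3 : x ^ (k + 2) ≤ x ^ 2 := pow_le_pow_of_le_one hx0 hx1 (by omega)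
          have e4 : η * α ≤ x * (1 - x) := mul_le_mul hxη hxα hα.le hx0
          have e5 : (1 - x) ^ (k + 2) + x ^ (k + 2) ≤ 1 - 2 * (η * α) := by nlinarith
          gcongr
        have h8 : A ≤ 2 * (c * η * α) * (n : ℝ) ^ (k + 2) := by
          have h1 : (N5 : ℝ) ≤ n := by exact_mod_cast (by omega : N5 ≤ n)
          have h2 := (hN5.trans h1).trans hpow
          rw [div_le_iff₀ (by positivity)] at h2
          linarith
        rw [hns] at h5
        have h10 : 2 * c * (((n : ℝ) - s) ^ (k + 2) + (s : ℝ) ^ (k + 2))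
            ≤ 2 * c * ((1 - 2 * (η * α)) * (n : ℝ) ^ (k + 2)) := by gcongr
        have h9 : ((DP G (k + 2)).ncard : ℝ) ≤ 2 * (PP (k + 2) n m' : ℕ) := by
          linarith
        exact_mod_cast h9
  · -- not rich
    have h1 := hNR (Fin n) G (by rw [hcard]; omega) hG hr
    rw [hcard] at h1
    obtain ⟨m', hm', hm''⟩ := hN1 n (by omega)
    refine ⟨m', hm', ?_⟩
    have h9 : ((DP G (k + 2)).ncard : ℝ) ≤ 2 * (PP (k + 2) n m' : ℕ) := by
      linarith
    exact_mod_cast h9

end Pool.Agent.Y893.PK
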